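import Pool.Agent.Results.MP_fd8838_nt.ExceptionalCapture
import Pool.Agent.Y854.GM.Ae

/-!
# Möller's maps: all orbits starting in short windows around arbitrary sequences are captured

Let `v` be ANY sequence of reals `≥ 1`. For almost every `α > 0`, for all but finitely many `n`, the orbits of ALL
integers `x` with `||x| - α v_n| ≤ L_n` come down to values `≤ y_n`, and (if they stay positive) to elements `≤ y_n` of
the exceptional set, as soon as `∑ L_n y_n ^ (-c) < ∞`; for example `L_n = 1` and `y_n = (n + 1) ^ (2 / c)`, independently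
of the growth of `v`.
-/

set_option autoImplicit false

namespace Pool.Agent.Results.MP_fd8838_nt.CapturedWindows

open MeasureTheory

/-- the map `T(n) = n / d` if `d ∣ n` and `(m n - r_j) / d` if `n ≡ j mod d`, `1 ≤ j < d`; the points of a
`T`-orbit that are not divisible by `d` form the `H`-orbit -/
def T (d m : ℕ) (r : ℕ → ℤ) (n : ℤ) : ℤ :=
  if (d : ℤ) ∣ n then n / d else (m * n - r (n % d).toNat) / d

/-- the exceptional set `E(d, m, R)`, in terms of `T`: the integers `e > 0` not divisible by `d` such that,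
as long as the orbit of `e` stays positive, its terms not divisible by `d` (the terms of the `H`-orbit)
are `≥ e` -/
def E (d m : ℕ) (r : ℕ → ℤ) : Set ℤ :=
  {e : ℤ | 0 < e ∧ ¬ (d : ℤ) ∣ e ∧ ∀ k : ℕ, (∀ j ≤ k, 0 < (T d m r)^[j] e) →
    ¬ (d : ℤ) ∣ (T d m r)^[k] e → e ≤ (T d m r)^[k] e}

/-- **Theorem.** Let `d, m ≥ 2` be coprime with `m ≤ d ^ (d / (d - 1))`. There is `c > 0` such that for all admissible
`R` and all sequences `v_n ≥ 1`, `y_n ≥ 1`, `0 ≤ L_n ≤ v_n` with `∑ L_n y_n ^ (-c) < ∞` there is a set `N` of measure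
zero such that for each `α > 0` outside `N` and all but finitely many `n`, for EVERY integer `x` with
`||x| - α v_n| ≤ L_n`: some `T^k(x)` is at most `y_n` in absolute value, and if the orbit of `x` stays positive then
some `T^k(x)` is an element `≤ y_n` of the exceptional set `E(d, m, R)`. -/
theorem result (d m : ℕ) (hd : 2 ≤ d) (hm : 2 ≤ m) (hc : Nat.Coprime m d)
    (hle : (m : ℝ) ≤ (d : ℝ) ^ ((d : ℝ) / ((d : ℝ) - 1))) :
    ∃ c : ℝ, 0 < c ∧ ∀ r : ℕ → ℤ, (∀ j : ℕ, 1 ≤ j → j < d → r j ≡ m * j [ZMOD d]) →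
      ∀ v y L : ℕ → ℝ, (∀ n, 1 ≤ v n) → (∀ n, 1 ≤ y n) → (∀ n, 0 ≤ L n ∧ L n ≤ v n) →
        Summable (fun n => L n * (y n) ^ (-c)) →
        ∃ N : Set ℝ, volume N = 0 ∧ ∀ α : ℝ, 0 < α → α ∉ N → ∃ n₀ : ℕ, ∀ n : ℕ, n₀ ≤ n →
          ∀ x : ℤ, |(|x| : ℝ) - α * v n| ≤ L n →
            (∃ k : ℕ, |(((T d m r)^[k] x : ℤ) : ℝ)| ≤ y n) ∧
            ((∀ k : ℕ, 0 < (T d m r)^[k] x) →
              ∃ k : ℕ, (T d m r)^[k] x ∈ E d m r ∧ (((T d m r)^[k] x : ℤ) : ℝ) ≤ y n) := by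
  obtain ⟨c, hc0, h⟩ := ExceptionalCapture.result d m hd hm hc hle
  refine ⟨c, hc0, fun r hr v y L hv hy hL hsum => ?_⟩
  obtain ⟨C, hC, hcount⟩ := h r hr
  set S : ℕ → Set ℤ := fun n => {x : ℤ | (∀ k : ℕ, y n < |(((T d m r)^[k] x : ℤ) : ℝ)|) ∨
    ((∀ k : ℕ, 0 < (T d m r)^[k] x) ∧ ∀ k : ℕ, (T d m r)^[k] x ∈ E d m r → y n < (((T d m r)^[k] x : ℤ) : ℝ))}
    with hS
  have key : ∀ n, ∀ X : ℝ, 1 ≤ X → {x | x ∈ S n ∧ |(x : ℝ)| ≤ X}.Finite ∧
      ({x | x ∈ S n ∧ |(x : ℝ)| ≤ X}.ncard : ℝ) ≤ (2 * C * (y n) ^ (-c)) * X := by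
    intro n X hX
    have hb : ∀ P : ℤ → Prop, {x : ℤ | P x ∧ |(x : ℝ)| ≤ X}.Finite := by
      intro P
      refine (Set.finite_Icc (-⌊X⌋) ⌊X⌋).subset ?_
      rintro k ⟨-, h1⟩
      rw [abs_le] at h1
      rw [Set.mem_Icc]
      constructor
      · rw [neg_le]
        apply Int.le_floor.2
        push_cast
        linarith [h1.1]
      · exact Int.le_floor.2 h1.2
    refine ⟨hb _, ?_⟩
    obtain ⟨h1, h2⟩ := hcount X (y n) hX (hy n)
    have hf1 : {x : ℤ | 1 ≤ x ∧ (x : ℝ) ≤ X ∧ (∀ k : ℕ, 0 < (T d m r)^[k] x) ∧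
          ∀ k : ℕ, (T d m r)^[k] x ∈ E d m r → y n < (((T d m r)^[k] x : ℤ) : ℝ)}.Finite := by
      refine (hb (fun _ => True)).subset ?_
      rintro x ⟨h3, h4, -⟩
      refine ⟨trivial, ?_⟩
      rw [abs_of_nonneg (by exact_mod_cast (by omega : (0 : ℤ) ≤ x))]
      exact h4
    have hf2 : {x : ℤ | |(x : ℝ)| ≤ X ∧ ∀ k : ℕ, y n < |(((T d m r)^[k] x : ℤ) : ℝ)|}.Finite := by
      refine (hb (fun _ => True)).subset ?_
      rintro x ⟨h3, -⟩
      exact ⟨trivial, h3⟩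
    have hsub : {x | x ∈ S n ∧ |(x : ℝ)| ≤ X} ⊆
        {x : ℤ | 1 ≤ x ∧ (x : ℝ) ≤ X ∧ (∀ k : ℕ, 0 < (T d m r)^[k] x) ∧
          ∀ k : ℕ, (T d m r)^[k] x ∈ E d m r → y n < (((T d m r)^[k] x : ℤ) : ℝ)} ∪
        {x : ℤ | |(x : ℝ)| ≤ X ∧ ∀ k : ℕ, y n < |(((T d m r)^[k] x : ℤ) : ℝ)|} := by
      rintro x ⟨hx | ⟨hx1, hx2⟩, hxX⟩
      · right
        exact ⟨hxX, hx⟩
      · left
        have h3 : 0 < x := hx1 0
        exact ⟨by omega, (le_abs_self _).trans hxX, hx1, hx2⟩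
    have h3 := (Set.ncard_le_ncard hsub (hf1.union hf2)).trans (Set.ncard_union_le _ _)
    have h4 : ({x | x ∈ S n ∧ |(x : ℝ)| ≤ X}.ncard : ℝ) ≤ C * X / (y n) ^ c + C * X / (y n) ^ c := by
      refine le_trans ?_ (add_le_add h1 h2)
      exact_mod_cast h3
    refine h4.trans (le_of_eq ?_)
    rw [Real.rpow_neg (by linarith [hy n])]
    field_simp
    ring
  have hsum2 : Summable (fun n => (2 * C * (y n) ^ (-c)) * L n) := by
    have h1 : (fun n => (2 * C * (y n) ^ (-c)) * L n) = fun n => (2 * C) * (L n * (y n) ^ (-c)) := by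
      funext n
      ring
    rw [h1]
    exact hsum.mul_left _
  obtain ⟨N, hN, hN2⟩ := Pool.Agent.Y854.GM.ae_windows S (fun x : ℤ => |(x : ℝ)|) v L
    (fun n => 2 * C * (y n) ^ (-c)) hv (fun n => (hL n).1) (fun n => (hL n).2)
    (fun n => by
      have := hy n
      positivity) key hsum2
  refine ⟨N, hN, fun α hα hαN => ?_⟩
  obtain ⟨n₀, hn⟩ := hN2 α hα hαN
  refine ⟨n₀, fun n hn1 x hw => ⟨?_, fun hpos => ?_⟩⟩
  · by_contra hcon
    push Not at hcon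
    exact absurd (hn n hn1 x (Or.inl hcon)) (not_lt.2 hw)
  · by_contra hcon
    push Not at hcon
    exact absurd (hn n hn1 x (Or.inr ⟨hpos, hcon⟩)) (not_lt.2 hw)

end Pool.Agent.Results.MP_fd8838_nt.CapturedWindows
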