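import Pool.Agent.Y927.GP.M2
import Pool.Agent.Y57.HS.Traj2

/-!
# Möller's exceptional sets and the integers which arise from an arbitrary integer by changing a few digits

Let `gcd(m, d) = 1`, `1 ≤ m ≤ d^(d/(d-1))`, let `R` be admissible, `f` a nonconstant polynomial with integer coefficients and `q ≥ 2` a
base coprime to `d`. For all but at most a proportion `exp (-δ s)` of the integers `n` obtained from an arbitrary integer `N` by
changing `s` digits in base `q` the number `f n` is not in the exceptional set `E(d, m, R)`.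
-/

set_option autoImplicit false

namespace Pool.Agent.Results.MP_fd8838_nt.FewDigitChanges

open Finset Filter Polynomial Pool.Agent.Y927.GP

/-- The generalised Hasse-Syracuse map `H(x) = (m x - r_j) / d ^ a(x)`, where `j` is the residue of
`x` modulo `d` and `d ^ a(x)` is the largest power of `d` dividing `m x - r_j`. -/
noncomputable def H (d m : ℕ) (r : ℤ → ℤ) (x : ℤ) : ℤ :=
  (m * x - r (x % d)) / (d : ℤ) ^ multiplicity (d : ℤ) (m * x - r (x % d))

/-- The iterate `H^k(y)` is defined: the orbit does not stop before (it stops at `z` if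
`m z ≤ r_j`, where `z ≡ j` modulo `d`). -/
def Defined (d m : ℕ) (r : ℤ → ℤ) (y : ℤ) (k : ℕ) : Prop :=
  ∀ i < k, r ((H d m r)^[i] y % d) < m * (H d m r)^[i] y

/-- The exceptional set `E(d, m, R)`: the positive integers `n` not divisible by `d` such that
`H^k(n) ≥ n` for all `k ≥ 1` for which `H^k(n)` is defined. -/
def E (d m : ℕ) (r : ℤ → ℤ) : Set ℤ :=
  {n | 0 < n ∧ ¬ (d : ℤ) ∣ n ∧ ∀ k, 1 ≤ k → Defined d m r n k → n ≤ (H d m r)^[k] n}

/-- The digit number `i` (counted from the right, beginning with `0`) of `n` in base `q`. -/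
def digit (q i n : ℕ) : ℕ := n / q ^ i % q

/-- The number which arises from the number `N` with at most `K` digits in base `q`, if for every `i ∈ S`
the digit number `i` is replaced by `φ i`. -/
def change (q K N : ℕ) (φ : ℕ → ℕ) (S : Finset ℕ) : ℕ :=
  ∑ i ∈ range K, (if i ∈ S then φ i else digit q i N) * q ^ i

open Classical in
/-- The number of the choices of `s` of the `K` positions for which the number obtained by changing the digits of `N` at
the chosen positions (according to `φ`) does not have the property `E`. -/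
noncomputable def exceptions (q K s N : ℕ) (φ : ℕ → ℕ) (E : ℕ → Prop) : ℕ :=
  ((powersetCard s (range K)).filter (fun S => ¬ E (change q K N φ S))).card

theorem exceptions_le {q K s N : ℕ} {φ : ℕ → ℕ} {E : ℕ → Prop} {X : ℝ}
    (h : ∀ A ⊆ powersetCard s (range K), (∀ S ∈ A, ¬ E (change q K N φ S)) → (A.card : ℝ) ≤ X) :
    (exceptions q K s N φ E : ℝ) ≤ X := by
  classical
  unfold exceptions
  exact h _ (filter_subset _ _) (fun S hS => (mem_filter.1 hS).2)

/-- the `H`-orbit, if the `T`-orbit comes down -/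
theorem descent {d m : ℕ} (hd : 2 ≤ d) (hm : 1 ≤ m) {r : ℤ → ℤ} (hr : ∀ j : ℤ, 1 ≤ j → j < d → (d : ℤ) ∣ m * j - r j)
    {y : ℤ} (hy : 0 < y) (hyd : ¬ (d : ℤ) ∣ y) {k : ℕ} {Z : ℝ} (hk : |(((Mo.T d m r)^[k] y : ℤ) : ℝ)| ≤ Z) (hb : (Mo.bd d r : ℝ) ≤ Z) :
    ∃ k' : ℕ, Defined d m r y k' ∧ 0 < (H d m r)^[k'] y ∧ (((H d m r)^[k'] y : ℤ) : ℝ) ≤ Z := by
  obtain ⟨k', h1, h2, h3⟩ := Mo.key hd hm hr (Mo.le_bd (d := d) (r := r)) hy hyd k
  refine ⟨k', h1, h2, ?_⟩
  have e1 : (Mo.H d m r)^[k'] y = (H d m r)^[k'] y := rfl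
  rw [e1] at h2 h3
  rcases h3 with ⟨s, hs, -⟩ | h3
  · have h6 : (H d m r)^[k'] y ≤ (Mo.T d m r)^[k] y := by
      rw [hs]
      have : (1 : ℤ) ≤ (d : ℤ) ^ s := one_le_pow₀ (by omega)
      nlinarith
    have h7 : (((H d m r)^[k'] y : ℤ) : ℝ) ≤ (((Mo.T d m r)^[k] y : ℤ) : ℝ) := by exact_mod_cast h6
    exact h7.trans ((le_abs_self _).trans hk)
  · have h6 : (((H d m r)^[k'] y : ℤ) : ℝ) ≤ ((Mo.bd d r : ℕ) : ℝ) := by exact_mod_cast h3
    exact h6.trans hb

/-- **Main theorem.** Let `gcd(m, d) = 1`, `1 ≤ m ≤ d^(d/(d-1))`, let `R` be admissible, `f` a polynomial of degree at least `1` with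
integer coefficients and `q ≥ 2` a base which is coprime to `d`. In what follows `0 ≤ N < q ^ K` is an arbitrary integer, for every
position `j` a digit `φ j` different from the digit of `N` in base `q` is prescribed, `s` of the `K ≥ 2 s` positions are chosen and
the digits of `N` at these positions are replaced.
1. There are `δ > 0` and `s₀` such that for all `s ≥ s₀`, `K`, `N` and `φ` and for all but at most a proportion `exp (-δ s)` of
the choices the number `n` obtained satisfies `f n ∉ E(d, m, R)`.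
2. For every `B` there are `η, δ > 0` and `s₀` such that for all `s ≥ s₀`, `K ≤ B s`, `N` and `φ` and for all but at most a
proportion `exp (-δ s)` of the choices: if `f n` is positive and not divisible by `d`, then the `H`-orbit of `f n` has a term
`0 < H^k(f n) ≤ (f n) ^ (1 - η)`. -/
theorem result (d m : ℕ) (hd : 2 ≤ d) (hm : 1 ≤ m) (hc : Nat.Coprime m d)
    (hle : (m : ℝ) ≤ (d : ℝ) ^ ((d : ℝ) / ((d : ℝ) - 1))) (r : ℤ → ℤ)
    (hr : ∀ j : ℤ, 1 ≤ j → j < d → r j ≡ m * j [ZMOD d]) (f : ℤ[X]) (hf : 1 ≤ f.natDegree)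
    (q : ℕ) (hq : 2 ≤ q) (hqd : Nat.Coprime q d) :
    (∃ δ : ℝ, 0 < δ ∧ ∃ s₀ : ℕ, ∀ s K : ℕ, s₀ ≤ s → 2 * s ≤ K →
      ∀ N : ℕ, N < q ^ K → ∀ φ : ℕ → ℕ, (∀ j, φ j < q ∧ φ j ≠ digit q j N) →
      (exceptions q K s N φ (fun n => f.eval (n : ℤ) ∉ E d m r) : ℝ) ≤ Real.exp (-(δ * s)) * (K.choose s : ℝ)) ∧
    (∀ B : ℝ, ∃ η δ : ℝ, 0 < η ∧ 0 < δ ∧ ∃ s₀ : ℕ, ∀ s K : ℕ, s₀ ≤ s → 2 * s ≤ K → (K : ℝ) ≤ B * s →
      ∀ N : ℕ, N < q ^ K → ∀ φ : ℕ → ℕ, (∀ j, φ j < q ∧ φ j ≠ digit q j N) →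
      (exceptions q K s N φ (fun n => 0 < f.eval (n : ℤ) → ¬ (d : ℤ) ∣ f.eval (n : ℤ) →
        ∃ k : ℕ, Defined d m r (f.eval (n : ℤ)) k ∧ 0 < (H d m r)^[k] (f.eval (n : ℤ)) ∧
          (((H d m r)^[k] (f.eval (n : ℤ)) : ℤ) : ℝ) ≤ ((f.eval (n : ℤ) : ℤ) : ℝ) ^ (1 - η)) : ℝ) ≤
            Real.exp (-(δ * s)) * (K.choose s : ℝ)) := by
  have hr' : ∀ j : ℤ, 1 ≤ j → j < d → (d : ℤ) ∣ m * j - r j := fun j h1 h2 => (hr j h1 h2).dvd
  have D := Mo.data (r := r) hd hc hr'
  have hC := Mo.cls (m := m) (r := r) hd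
  have hμ : mu (Pool.Agent.H319R2.Leigh.gm D) (Mo.CC d) (fun _ => 1 / (d : ℝ)) < 0 := by
    rw [Mo.mu_eq hd D]
    have := Mo.m_lt hd hm hc hle
    linarith
  have hTT : (Pool.Agent.H319R2.Leigh.gm D).T = Mo.T d m r := by rw [Pool.Agent.H319R2.Leigh.gm_T, Mo.T_eq]
  have hqd' : Nat.Coprime q (Pool.Agent.H319R2.Leigh.gm D).d := hqd
  obtain ⟨c, c₂, δ, hc0, hc₂, hδ, s₀, h⟩ := Pool.Agent.Y57.HS.drop (Pool.Agent.H319R2.Leigh.gm_fac D)
    (Pool.Agent.H319R2.Leigh.gm_cls D hC) hμ hf q hq hqd'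
  rw [hTT] at h
  refine ⟨?_, fun B => ?_⟩
  · have hev : ∀ᶠ s : ℕ in atTop, ((Mo.bd d r : ℕ) : ℝ) + 1 ≤ Real.exp (c * s) ∧ 1 ≤ s := by
      have h1 : Tendsto (fun s : ℕ => Real.exp (c * s)) atTop atTop :=
        Real.tendsto_exp_atTop.comp (tendsto_natCast_atTop_atTop.const_mul_atTop hc0)
      filter_upwards [h1.eventually (eventually_ge_atTop _), eventually_ge_atTop 1] with s a1 a2
      exact ⟨a1, a2⟩
    obtain ⟨s₁, hs₁⟩ := eventually_atTop.1 hev
    refine ⟨δ, hδ, max s₀ s₁, fun s K hs hsK N hN φ hφ => ?_⟩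
    obtain ⟨hb1, hb2⟩ := hs₁ s ((le_max_right _ _).trans hs)
    apply exceptions_le
    intro A hA hE
    refine h s K ((le_max_left _ _).trans hs) hsK N hN φ hφ A hA (fun S hS => ⟨Mo.mem_S hd _, ?_⟩)
    rintro ⟨h1, k, -, h2⟩
    apply hE S hS
    rintro ⟨hy, hyd, hEy⟩
    set y := f.eval ((change q K N φ S : ℕ) : ℤ) with hydef
    have hyr : (0 : ℝ) < (y : ℝ) := by exact_mod_cast hy
    have e1 : f.eval ((Pool.Agent.TH894.SM.change q K N φ S : ℕ) : ℤ) = y := rfl
    rw [e1, abs_of_pos hyr] at h1 h2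
    obtain ⟨k', h3, h4, h5⟩ := descent hd hm hr' hy hyd (k := k) (Z := max (Real.exp (-(c₂ * s)) * (y : ℝ)) (Mo.bd d r : ℝ))
      (h2.trans (le_max_left _ _)) (le_max_right _ _)
    have h6 : (((H d m r)^[k'] y : ℤ) : ℝ) < y := by
      refine lt_of_le_of_lt h5 (max_lt ?_ (by linarith))
      have h7 : Real.exp (-(c₂ * s)) < 1 := by
        rw [Real.exp_lt_one_iff]
        have : (1 : ℝ) ≤ s := by exact_mod_cast hb2
        have : 0 < c₂ * s := by positivity
        linarith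
      exact mul_lt_of_lt_one_left hyr h7
    have h8 : (H d m r)^[k'] y < y := by exact_mod_cast h6
    rcases Nat.eq_zero_or_pos k' with h0 | h0
    · subst h0
      simp at h8
    · have := hEy k' h0 h3
      omega
  · obtain ⟨B', hB', s₁, h'⟩ := Pool.Agent.Y57.HS.size_up q hq f c hc0 B
    obtain ⟨η, hη⟩ : ∃ η, η = min (c₂ / B') (1 / 2) := ⟨_, rfl⟩
    have hη0 : 0 < η := by rw [hη]; exact lt_min (by positivity) (by norm_num)
    have hη1 : η ≤ c₂ / B' := by rw [hη]; exact min_le_left _ _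
    have hη2 : η ≤ 1 / 2 := by rw [hη]; exact min_le_right _ _
    have hev : ∀ᶠ s : ℕ in atTop, ((Mo.bd d r : ℕ) : ℝ) ≤ Real.exp (c / 2 * s) := by
      have h1 : Tendsto (fun s : ℕ => Real.exp (c / 2 * s)) atTop atTop :=
        Real.tendsto_exp_atTop.comp (tendsto_natCast_atTop_atTop.const_mul_atTop (by positivity))
      exact h1.eventually (eventually_ge_atTop _)
    obtain ⟨s₂, hs₂⟩ := eventually_atTop.1 hev
    refine ⟨η, δ, hη0, hδ, max s₀ (max s₁ s₂), fun s K hs hsK hKB N hN φ hφ => ?_⟩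
    have hs1 : s₁ ≤ s := ((le_max_left _ _).trans (le_max_right _ _)).trans hs
    have hs2 : s₂ ≤ s := ((le_max_right _ _).trans (le_max_right _ _)).trans hs
    apply exceptions_le
    intro A hA hE
    refine h s K ((le_max_left _ _).trans hs) hsK N hN φ hφ A hA (fun S hS => ⟨Mo.mem_S hd _, ?_⟩)
    rintro ⟨h1, k, -, h2⟩
    apply hE S hS
    intro hy hyd
    have h6 := h' s K hs1 hKB N φ (fun j => (hφ j).1) S h1
    set y := f.eval ((change q K N φ S : ℕ) : ℤ) with hydef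
    have hyr : (0 : ℝ) < (y : ℝ) := by exact_mod_cast hy
    have e1 : f.eval ((Pool.Agent.TH894.SM.change q K N φ S : ℕ) : ℤ) = y := rfl
    rw [e1, abs_of_pos hyr] at h1 h2 h6
    have hy1 : (1 : ℝ) ≤ y := by exact_mod_cast hy
    refine descent hd hm hr' hy hyd (k := k) ?_ ?_
    · refine h2.trans (((Pool.Agent.Y57.HS.exp_to_pow hc₂ hB' hyr h6).1).trans ?_)
      exact Real.rpow_le_rpow_of_exponent_le hy1 (by linarith)
    · refine (hs₂ s hs2).trans ?_
      calc Real.exp (c / 2 * s) = (Real.exp (c * s)) ^ (1 / 2 : ℝ) := by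
            rw [← Real.exp_mul]
            congr 1
            ring
        _ ≤ (y : ℝ) ^ (1 / 2 : ℝ) := Real.rpow_le_rpow (by positivity) h1 (by norm_num)
        _ ≤ _ := Real.rpow_le_rpow_of_exponent_le hy1 (by linarith)

end Pool.Agent.Results.MP_fd8838_nt.FewDigitChanges
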