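import Mathlib
import Pool.Agent.Y780.Mo.Two

set_option autoImplicit false

/-!
# The residue words of the elements of the exceptional sets: few simple pieces, Hamming distance

For every `A` there is `B` such that, for every large element `n` of the exceptional set `E(d, m, R)` and
EVERY `N`: if the word of the residues modulo `d` of the first `N` terms of the `T`-orbit of `n` is a
concatenation of `s` words with at most `A k` factors of each length `k ≥ (log n) / B`, or differs in `s`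
places from one such word, then `N ≤ B ^ (s + 1) log n`. So the number of simple pieces and the distance
from simple words are at least `log (N / log n) / log B - 1` for all `N`.
-/

namespace Pool.Agent.Results.MP_fd8838_nt.PiecesExceptional

open Pool.Agent.TH932.S2

/-- The generalised Hasse-Syracuse map `H(x) = (m x - r_j) / d ^ a(x)`, where `j` is the residue of
`x` modulo `d` and `d ^ a(x)` is the largest power of `d` dividing `m x - r_j`. -/
noncomputable def H (d m : ℕ) (r : ℤ → ℤ) (x : ℤ) : ℤ :=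
  (m * x - r (x % d)) / (d : ℤ) ^ multiplicity (d : ℤ) (m * x - r (x % d))

/-- The exceptional set `E(d, m, R)`: the positive integers `n` not divisible by `d` such that
`H^k(n) ≥ n` for all `k ≥ 1` for which `H^k(n)` is defined (the orbit stops at `y` if
`m y ≤ r_j`). -/
def E (d m : ℕ) (r : ℤ → ℤ) : Set ℤ :=
  {n | 0 < n ∧ ¬ (d : ℤ) ∣ n ∧ ∀ k, 1 ≤ k →
    (∀ i < k, r ((H d m r)^[i] n % d) < m * (H d m r)^[i] n) → n ≤ (H d m r)^[k] n}

/-- The map `T(x) = x / d` if `d ∣ x`, `T(x) = (m x - r_j) / d` if `x ≡ j (mod d)`, `1 ≤ j < d`. -/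
def T (d m : ℕ) (r : ℤ → ℤ) (x : ℤ) : ℤ := if x % d = 0 then x / d else (m * x - r (x % d)) / d

/-- The list of the residues modulo `d` of the first `N` terms of the `T`-orbit of `n`. -/
def residues (d m : ℕ) (r : ℤ → ℤ) (n : ℤ) (N : ℕ) : List (ZMod d) :=
  (List.range N).map fun i => (((T d m r)^[i] n : ℤ) : ZMod d)

/-- The number of different factors (blocks of consecutive letters) of length `k` of a word. -/
def complexity {d : ℕ} (u : List (ZMod d)) (k : ℕ) : ℕ :=
  ((Finset.range (u.length + 1 - k)).image fun i => (u.drop i).take k).card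

/-- The word `u` has at most `A k` factors of each length `k ≥ s` (`s` a real number). -/
def LinearComplexity {d : ℕ} (A s : ℝ) (u : List (ZMod d)) : Prop :=
  ∀ k : ℕ, s ≤ k → (complexity u k : ℝ) ≤ A * k

/-- The number of places in which two words differ. -/
def hammingDistance {d : ℕ} (u v : List (ZMod d)) : ℕ := ((u.zip v).filter fun a => a.1 != a.2).length

section
variable {d m : ℕ} {r : ℤ → ℤ}

lemma mod_range (hd : 2 ≤ d) {y : ℤ} (hy : ¬ (d : ℤ) ∣ y) : 1 ≤ y % d ∧ y % d < d := by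
  have hd0 : (0 : ℤ) < d := by exact_mod_cast (by omega : 0 < d)
  have h1 := Int.emod_nonneg y hd0.ne'
  have h2 := Int.emod_lt_of_pos y hd0
  have h3 : y % d ≠ 0 := fun h => hy (Int.dvd_of_emod_eq_zero h)
  omega

lemma H_spec (hd : 2 ≤ d) (hr : ∀ j : ℤ, 1 ≤ j → j < d → (d : ℤ) ∣ m * j - r j) {y : ℤ}
    (hy : ¬ (d : ℤ) ∣ y) (hpos : r (y % d) < m * y) :
    ¬ (d : ℤ) ∣ H d m r y ∧ ∃ v : ℕ, m * y - r (y % d) = (d : ℤ) ^ (v + 1) * H d m r y := by
  set z := m * y - r (y % d) with hz
  have hz0 : z ≠ 0 := by omega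
  obtain ⟨h1, h2⟩ := mod_range hd hy
  have hdz : (d : ℤ) ∣ z := by
    have h3 := hr (y % d) h1 h2
    have h4 : (d : ℤ) ∣ m * (y - y % d) := Dvd.dvd.mul_left (Int.dvd_self_sub_emod) _
    have h5 := dvd_add h3 h4
    have h6 : (m : ℤ) * (y % d) - r (y % d) + m * (y - y % d) = z := by rw [hz]; ring
    rwa [h6] at h5
  have hf : FiniteMultiplicity (d : ℤ) z := by
    rw [Int.finiteMultiplicity_iff]
    exact ⟨by simp; omega, hz0⟩
  have hv : 1 ≤ multiplicity (d : ℤ) z := by
    rw [← hf.pow_dvd_iff_le_multiplicity]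
    simpa using hdz
  obtain ⟨v, hv'⟩ : ∃ v, multiplicity (d : ℤ) z = v + 1 := ⟨multiplicity (d : ℤ) z - 1, by omega⟩
  have hdvd : (d : ℤ) ^ (v + 1) ∣ z := by rw [← hv']; exact pow_multiplicity_dvd _ _
  have hH : H d m r y = z / (d : ℤ) ^ (v + 1) := by unfold H; rw [← hz, hv']
  have hzH : z = (d : ℤ) ^ (v + 1) * H d m r y := by rw [hH, Int.mul_ediv_cancel' hdvd]
  refine ⟨fun h => ?_, v, hzH⟩
  have h7 : (d : ℤ) ^ (v + 1 + 1) ∣ z := by
    rw [hzH, pow_succ (d : ℤ) (v + 1)]
    exact mul_dvd_mul_left _ h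
  have h8 := hf.pow_dvd_iff_le_multiplicity.1 h7
  omega

/-- the terms of the `T`-orbit of an element of the exceptional set stay above it -/
lemma orbit_ge (hd : 2 ≤ d) (hm : 1 ≤ m) (hr : ∀ j : ℤ, 1 ≤ j → j < d → (d : ℤ) ∣ m * j - r j)
    {ρ : ℤ} (hρ : ∀ j : ℤ, 1 ≤ j → j < d → r j ≤ ρ) {n : ℤ} (hn : n ∈ E d m r) (hnρ : ρ < n)
    (t : ℕ) : n ≤ (T d m r)^[t] n := by
  have hd0 : (0 : ℤ) < d := by exact_mod_cast (by omega : 0 < d)
  have hm1 : (1 : ℤ) ≤ m := by exact_mod_cast hm
  obtain ⟨hn0, hnd, hE⟩ := hn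
  have key : ∃ k s : ℕ, (∀ i < k, r ((H d m r)^[i] n % d) < m * (H d m r)^[i] n) ∧
      (T d m r)^[t] n = (d : ℤ) ^ s * (H d m r)^[k] n ∧ ¬ (d : ℤ) ∣ (H d m r)^[k] n := by
    induction t with
    | zero => exact ⟨0, 0, by simp, by simp, by simpa using hnd⟩
    | succ t ih =>
      obtain ⟨k, s, h1, h2, h3⟩ := ih
      have hge : n ≤ (H d m r)^[k] n := by
        rcases Nat.eq_zero_or_pos k with h0 | h0
        · subst h0; simp
        · exact hE k h0 h1
      rcases Nat.eq_zero_or_pos s with h0 | h0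
      · subst h0
        set y := (H d m r)^[k] n with hy
        obtain ⟨g1, g2⟩ := mod_range hd h3
        have hpos : r (y % d) < m * y := by
          have := hρ _ g1 g2
          nlinarith
        obtain ⟨k1, v, k2⟩ := H_spec hd hr h3 hpos
        refine ⟨k + 1, v, ?_, ?_, ?_⟩
        · intro i hi
          rcases Nat.lt_or_ge i k with h4 | h4
          · exact h1 i h4
          · have : i = k := by omega
            subst this
            exact hpos
        · rw [Function.iterate_succ_apply', h2, pow_zero, one_mul, Function.iterate_succ_apply',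
            ← hy]
          have h5 : T d m r y = (m * y - r (y % d)) / d := by
            unfold T
            rw [if_neg (by omega)]
          rw [h5, k2, pow_succ]
          have h6 : (d : ℤ) ^ v * d * H d m r y = d * ((d : ℤ) ^ v * H d m r y) := by ring
          rw [h6, Int.mul_ediv_cancel_left _ hd0.ne']
        · rw [Function.iterate_succ_apply', ← hy]; exact k1
      · obtain ⟨s', rfl⟩ : ∃ s', s = s' + 1 := ⟨s - 1, by omega⟩
        refine ⟨k, s', h1, ?_, h3⟩
        rw [Function.iterate_succ_apply', h2]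
        have h6 : (d : ℤ) ^ (s' + 1) * (H d m r)^[k] n = d * ((d : ℤ) ^ s' * (H d m r)^[k] n) := by
          ring
        unfold T
        rw [h6, if_pos (Int.mul_emod_right _ _), Int.mul_ediv_cancel_left _ hd0.ne']
  obtain ⟨k, s, h1, h2, _⟩ := key
  have hge : n ≤ (H d m r)^[k] n := by
    rcases Nat.eq_zero_or_pos k with h0 | h0
    · subst h0; simp
    · exact hE k h0 h1
  rw [h2]
  have h3 : (1 : ℤ) ≤ (d : ℤ) ^ s := one_le_pow₀ (by omega)
  nlinarith

/-- the constant terms -/
def bt (d : ℕ) (r : ℤ → ℤ) (a : ZMod d) : ℤ := if a = 0 then 0 else -r (a.val : ℤ)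

/-- a bound for the coefficients -/
def MM (d m : ℕ) (r : ℤ → ℤ) : ℕ := d + m + ∑ j ∈ Finset.range d, (r j).natAbs

lemma r_le (hj : ℤ) (h1 : 1 ≤ hj) (h2 : hj < d) : r hj ≤ (MM d m r : ℤ) := by
  obtain ⟨j, rfl⟩ : ∃ j : ℕ, hj = j := ⟨hj.toNat, by omega⟩
  have h3 : (r j).natAbs ≤ ∑ j ∈ Finset.range d, (r j).natAbs :=
    Finset.single_le_sum (f := fun j : ℕ => (r (j : ℤ)).natAbs) (fun _ _ => Nat.zero_le _)
      (Finset.mem_range.2 (by omega))
  unfold MM
  have h4 : r j ≤ ((r j).natAbs : ℤ) := Int.le_natAbs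
  push_cast at h3 ⊢
  have h5 : (((r j).natAbs : ℕ) : ℤ) ≤ ((∑ j ∈ Finset.range d, (r j).natAbs : ℕ) : ℤ) := by
    exact_mod_cast h3
  push_cast at h5 h4
  linarith [show (0 : ℤ) ≤ (d : ℤ) from by positivity, show (0 : ℤ) ≤ (m : ℤ) from by positivity]

/-- the affine maps -/
def TD (r : ℤ → ℤ) (hd : 2 ≤ d) (hm : 2 ≤ m) (hco : Nat.Coprime m d) : F.Dt (ZMod d) where
  p := d
  q := m
  M := MM d m r
  δ := fun a => if a = 0 then 0 else 1
  β := bt d r
  hp := hd
  hq := hm
  hpq := Nat.isCoprime_iff_coprime.2 hco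
  hpM := by unfold MM; omega
  hqM := by
    intro a
    unfold MM
    split_ifs
    · rw [pow_zero]; omega
    · rw [pow_one]; omega
  hβM := by
    intro a
    have : NeZero d := ⟨by omega⟩
    have h := a.val_lt
    unfold bt
    split_ifs with h0
    · simp
    · have h3 : (r (a.val : ℤ)).natAbs ≤ ∑ j ∈ Finset.range d, (r j).natAbs :=
        Finset.single_le_sum (f := fun j : ℕ => (r (j : ℤ)).natAbs) (fun _ _ => Nat.zero_le _)
          (Finset.mem_range.2 h)
      rw [abs_neg, Int.abs_eq_natAbs]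
      unfold MM
      have h5 : (((r (a.val : ℤ)).natAbs : ℕ) : ℤ)
          ≤ ((∑ j ∈ Finset.range d, (r j).natAbs : ℕ) : ℤ) := by exact_mod_cast h3
      push_cast at h5 ⊢
      linarith [show (0 : ℤ) ≤ (d : ℤ) from by positivity,
        show (0 : ℤ) ≤ (m : ℤ) from by positivity]

lemma mp (hd : 2 ≤ d) (hm : 2 ≤ m) (hco : Nat.Coprime m d)
    (hr : ∀ j : ℤ, 1 ≤ j → j < d → (d : ℤ) ∣ m * j - r j) :
    F.Mp (TD r hd hm hco) 1 (fun y => ((y : ℤ) : ZMod d)) (T d m r) where
  hd := isCoprime_one_left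
  hG := by
    intro y
    have : NeZero d := ⟨by omega⟩
    change (d : ℤ) * T d m r y = (m : ℤ) ^ (if ((y : ℤ) : ZMod d) = 0 then 0 else 1) * y
      + 1 * bt d r ((y : ℤ) : ZMod d)
    unfold T bt
    by_cases h0 : (d : ℤ) ∣ y
    · have h1 : ((y : ℤ) : ZMod d) = 0 := (ZMod.intCast_zmod_eq_zero_iff_dvd _ _).2 h0
      rw [if_pos h1, if_pos h1, if_pos (Int.emod_eq_zero_of_dvd h0), Int.mul_ediv_cancel' h0]
      ring
    · have h1 : ((y : ℤ) : ZMod d) ≠ 0 := fun h => h0 ((ZMod.intCast_zmod_eq_zero_iff_dvd _ _).1 h)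
      obtain ⟨g1, g2⟩ := mod_range hd h0
      have h2 : ((((y : ℤ) : ZMod d).val : ℕ) : ℤ) = y % d := ZMod.val_intCast y
      rw [if_neg h1, if_neg h1, if_neg (by omega), h2]
      have hdz : (d : ℤ) ∣ m * y - r (y % d) := by
        have h3 := hr (y % d) g1 g2
        have h4 : (d : ℤ) ∣ m * (y - y % d) := Dvd.dvd.mul_left (Int.dvd_self_sub_emod) _
        have h5 := dvd_add h3 h4
        have h6 : (m : ℤ) * (y % d) - r (y % d) + m * (y - y % d) = m * y - r (y % d) := by ring
        rwa [h6] at h5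
      rw [Int.mul_ediv_cancel' hdz]
      ring

end

/-- the trivial case `m = 1` -/
lemma one_case {d : ℕ} (hd : 2 ≤ d) (r : ℤ → ℤ)
    (hr : ∀ j : ℤ, 1 ≤ j → j < d → (d : ℤ) ∣ (1 : ℕ) * j - r j) {n : ℤ} (hK : (MM d 1 r : ℤ) < n) :
    (T d 1 r)^[1] n < n := by
  rw [Function.iterate_one]
  by_contra h1
  push Not at h1
  have hdz : (2 : ℤ) ≤ d := by exact_mod_cast hd
  have hMM : (0 : ℤ) ≤ (MM d 1 r : ℤ) := by positivity
  unfold T at h1
  split_ifs at h1 with h0
  · have h2 := Int.mul_ediv_cancel' (Int.dvd_of_emod_eq_zero h0)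
    nlinarith
  · have hnd : ¬ (d : ℤ) ∣ n := fun h => h0 (Int.emod_eq_zero_of_dvd h)
    obtain ⟨g1, g2⟩ := mod_range hd hnd
    have hdz' : (d : ℤ) ∣ (1 : ℕ) * n - r (n % d) := by
      have h3 := hr (n % d) g1 g2
      have h4 : (d : ℤ) ∣ (1 : ℕ) * (n - n % d) := Dvd.dvd.mul_left (Int.dvd_self_sub_emod) _
      have h5 := dvd_add h3 h4
      have h6 : ((1 : ℕ) : ℤ) * (n % d) - r (n % d) + (1 : ℕ) * (n - n % d)
        = (1 : ℕ) * n - r (n % d) := by ring
      rwa [h6] at h5
    have h2 := Int.mul_ediv_cancel' hdz'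
    have h4 : -r (n % d) ≤ (MM d 1 r : ℤ) := by
      obtain ⟨j, hj⟩ : ∃ j : ℕ, n % d = j := ⟨(n % d).toNat, by omega⟩
      rw [hj]
      have h3 : (r j).natAbs ≤ ∑ j ∈ Finset.range d, (r j).natAbs :=
        Finset.single_le_sum (f := fun j : ℕ => (r (j : ℤ)).natAbs) (fun _ _ => Nat.zero_le _)
          (Finset.mem_range.2 (by omega))
      have h5 : (((r j).natAbs : ℕ) : ℤ) ≤ ((∑ j ∈ Finset.range d, (r j).natAbs : ℕ) : ℤ) := by
        exact_mod_cast h3
      have h6 : -r j ≤ ((r j).natAbs : ℤ) := by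
        rw [← Int.abs_eq_natAbs]; exact neg_le_abs _
      unfold MM
      push_cast at h5 h6 ⊢
      linarith [show (0 : ℤ) ≤ (d : ℤ) from by positivity]
    push_cast at h1 h2
    nlinarith

/-- orbits which stay above their first term do not enter small cycles -/
lemma scale {B n : ℝ} (hB : 1 ≤ B) (hn : 6 * B ≤ Real.log n) (hn0 : 0 < n) :
    ∃ M : ℕ, 1 ≤ M ∧ Real.log n / (6 * B) ≤ M ∧ Real.exp (B * M) < n ∧
      (M : ℝ) + Real.log (n + 1) ≤ 6 * Real.log n := by
  refine ⟨⌈Real.log n / (6 * B)⌉₊, ?_, Nat.le_ceil _, ?_, ?_⟩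
  · rw [Nat.one_le_ceil_iff]
    have : 0 < Real.log n := by linarith
    positivity
  · have h1 : (⌈Real.log n / (6 * B)⌉₊ : ℝ) < Real.log n / (6 * B) + 1 := by
      apply Nat.ceil_lt_add_one
      have : 0 < Real.log n := by linarith
      positivity
    have h2 : B * (⌈Real.log n / (6 * B)⌉₊ : ℝ) < Real.log n := by
      calc B * (⌈Real.log n / (6 * B)⌉₊ : ℝ) < B * (Real.log n / (6 * B) + 1) := by gcongr
        _ = Real.log n / 6 + B := by field_simp
        _ ≤ Real.log n := by linarith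
    calc Real.exp (B * ⌈Real.log n / (6 * B)⌉₊) < Real.exp (Real.log n) := Real.exp_lt_exp.2 h2
      _ = n := Real.exp_log hn0
  · have h1 : (⌈Real.log n / (6 * B)⌉₊ : ℝ) < Real.log n / (6 * B) + 1 := by
      apply Nat.ceil_lt_add_one
      have : 0 < Real.log n := by linarith
      positivity
    have hn1 : 1 ≤ n := by
      by_contra hcon
      push Not at hcon
      have := Real.log_neg hn0 hcon
      linarith
    have h2 : Real.log (n + 1) ≤ Real.log n + 1 := by
      have h3 : n + 1 ≤ n * 2 := by linarith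
      have h4 := Real.log_le_log (by linarith) h3
      rw [Real.log_mul hn0.ne' (by norm_num)] at h4
      have := Real.log_two_lt_d9
      linarith
    have h5 : Real.log n / (6 * B) ≤ Real.log n := by
      apply div_le_self (by linarith)
      linarith
    linarith

/-- **Result.** Let `d ≥ 2`, `m ≥ 1` be coprime, `R = {r_j}` admissible and `A` a real number. There are
`B ≥ 1` and `n₀` such that the following holds for all `n > n₀` which belong to the exceptional set
`E(d, m, R)` or, more generally, are such that all terms of the `T`-orbit of `n` are at least `n`, and for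
all `N`.

(1) If the word of the residues modulo `d` of the first `N` terms of the `T`-orbit of `n` is the
concatenation of the words of the list `W`, each of which has at most `A k` factors of each length
`k ≥ (log n) / B`, then `N ≤ B ^ (s + 1) log n`, where `s` is the number of words in `W`.

(2) If a word of length `N` has at most `A k` factors of each length `k ≥ (log n) / B` and differs from
the residue word in `s` places, then `N ≤ B ^ (s + 1) log n`.

(3) If `x` is any integer and the `T`-orbits of `n` and `x` have not met after `N` steps, then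
`N ≤ B ^ (s + 1) log (n + |x|)`, where `s` is the number of places in which the residue words of length
`N` of `n` and `x` differ. -/
theorem result (d m : ℕ) (hd : 2 ≤ d) (hm : 1 ≤ m) (hco : Nat.Coprime m d) (r : ℤ → ℤ)
    (hr : ∀ j : ℤ, 1 ≤ j → j < d → (d : ℤ) ∣ m * j - r j) (A : ℝ) :
    ∃ B : ℝ, 1 ≤ B ∧ ∃ n₀ : ℕ, ∀ n : ℤ, (n₀ : ℤ) < n →
      (n ∈ E d m r ∨ ∀ t, n ≤ (T d m r)^[t] n) → ∀ N : ℕ,
      (∀ W : List (List (ZMod d)), W.flatten = residues d m r n N →
        (∀ u ∈ W, LinearComplexity A (Real.log n / B) u) →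
        (N : ℝ) ≤ B ^ (W.length + 1) * Real.log n) ∧
      (∀ v : List (ZMod d), v.length = N → LinearComplexity A (Real.log n / B) v →
        (N : ℝ) ≤ B ^ (hammingDistance (residues d m r n N) v + 1) * Real.log n) ∧
      (∀ x : ℤ, (T d m r)^[N] n ≠ (T d m r)^[N] x →
        (N : ℝ) ≤ B ^ (hammingDistance (residues d m r n N) (residues d m r x N) + 1) *
          Real.log (n + |x|)) := by
  have : NeZero d := ⟨by omega⟩
  rcases Nat.lt_or_ge m 2 with hm2 | hm2
  · -- the trivial case `m = 1`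
    obtain rfl : m = 1 := by omega
    refine ⟨1, le_rfl, MM d 1 r, fun n hn hst N => ?_⟩
    exfalso
    have h1 : n ≤ (T d 1 r)^[1] n := by
      rcases hst with h | h
      · exact orbit_ge hd le_rfl hr (ρ := MM d 1 r) (fun j h1 h2 => r_le j h1 h2) h hn 1
      · exact h 1
    exact absurd (one_case hd r hr hn) (not_lt.2 h1)
  obtain ⟨B1, hB1, h1⟩ := Pool.Agent.Y780.Mo.pieces (TD r hd hm2 hco) A
  obtain ⟨B2, hB2, h2⟩ := Pool.Agent.Y780.Mo.near (TD r hd hm2 hco) A
  obtain ⟨B3, hB3, h3⟩ := Pool.Agent.Y780.Mo.two' (TD r hd hm2 hco)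
  set B0 : ℝ := max B1 (max B2 B3) with hB0
  have e1 : B1 ≤ B0 := le_max_left _ _
  have e2 : B2 ≤ B0 := (le_max_left _ _).trans (le_max_right _ _)
  have e3 : B3 ≤ B0 := (le_max_right _ _).trans (le_max_right _ _)
  have hB01 : 1 ≤ B0 := hB1.trans e1
  obtain ⟨n1, hn1⟩ := exists_nat_ge (Real.exp (6 * B0))
  have hmp := mp hd hm2 hco hr
  refine ⟨6 * B0, by linarith, MM d m r + n1, fun n hn hst N => ?_⟩
  push_cast at hn
  have hMM0 : (0 : ℤ) ≤ (MM d m r : ℤ) := by positivity
  have hn10 : (0 : ℤ) ≤ (n1 : ℤ) := by positivity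
  have hn0 : 0 < n := by linarith
  have hn0R : (0 : ℝ) < n := by exact_mod_cast hn0
  have hge : ∀ t, n ≤ (T d m r)^[t] n := by
    rcases hst with h | h
    · exact orbit_ge hd hm hr (ρ := MM d m r) (fun j h1 h2 => r_le j h1 h2) h (by linarith)
    · exact h
  have hlog : 6 * B0 ≤ Real.log n := by
    rw [Real.le_log_iff_exp_le hn0R]
    refine hn1.trans ?_
    have : ((n1 : ℕ) : ℤ) ≤ n := by linarith
    exact_mod_cast this
  obtain ⟨M, hM1, hM2, hM3, hM4⟩ := scale hB01 hlog hn0R
  have hno : ∀ B : ℝ, B ≤ B0 → ∀ i, ¬ Pool.Agent.Y780.Mo.SmallCycle B M 1 (T d m r) ((T d m r)^[i] n) := by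
    intro B hB i hc
    have h4 := hc.2 0
    rw [Function.iterate_zero, id, Int.cast_one, abs_one, Real.log_one, add_zero] at h4
    have h5 : ((n : ℤ) : ℝ) ≤ (((T d m r)^[i] n : ℤ) : ℝ) := by exact_mod_cast hge i
    have h6 := (le_abs_self (((T d m r)^[i] n : ℤ) : ℝ)).trans h4
    have h7 : Real.exp (B * M) ≤ Real.exp (B0 * M) := by
      apply Real.exp_le_exp.2
      gcongr
    linarith
  have habs : |(n : ℝ)| = n := abs_of_pos hn0R
  have hS0 : 0 ≤ (M : ℝ) + Real.log (n + 1) := by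
    have : 0 ≤ Real.log ((n : ℝ) + 1) := Real.log_nonneg (by linarith)
    positivity
  have final : ∀ (B : ℝ) (s : ℕ), 1 ≤ B → B ≤ B0 →
      (N : ℝ) ≤ B ^ (s + 1) * (M + Real.log (|(n : ℝ)| + |((1 : ℤ) : ℝ)|)) →
      (N : ℝ) ≤ (6 * B0) ^ (s + 1) * Real.log n := by
    intro B s hB hBB hN
    rw [habs, Int.cast_one, abs_one] at hN
    have hl0 : 0 ≤ Real.log n := by linarith
    calc (N : ℝ) ≤ B ^ (s + 1) * (M + Real.log (n + 1)) := hN
      _ ≤ B0 ^ (s + 1) * (6 * Real.log n) := by gcongr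
      _ ≤ 6 ^ (s + 1) * (B0 ^ (s + 1) * Real.log n) := by
          have e : (6 : ℝ) ≤ 6 ^ (s + 1) := by
            rw [pow_succ]
            have : (1 : ℝ) ≤ 6 ^ s := one_le_pow₀ (by norm_num)
            linarith
          calc B0 ^ (s + 1) * (6 * Real.log n) = 6 * (B0 ^ (s + 1) * Real.log n) := by ring
            _ ≤ 6 ^ (s + 1) * (B0 ^ (s + 1) * Real.log n) := by gcongr
      _ = (6 * B0) ^ (s + 1) * Real.log n := by rw [mul_pow]; ring
  refine ⟨fun W hW hlow => ?_, fun v hv hlow => ?_, fun x hne => ?_⟩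
  · refine final B1 _ hB1 e1 ?_
    by_contra hcon
    push Not at hcon
    obtain ⟨i, _, hc⟩ := h1 1 _ (T d m r) hmp n M N W hM1 hW
      (fun u hu k hk => hlow u hu k (hM2.trans (by exact_mod_cast hk))) hcon
    exact hno B1 e1 i hc
  · refine final B2 _ hB2 e2 ?_
    by_contra hcon
    push Not at hcon
    obtain ⟨i, _, hc⟩ := h2 1 _ (T d m r) hmp n M N v hM1 hv
      (fun k hk => hlow k (hM2.trans (by exact_mod_cast hk))) hcon
    exact hno B2 e2 i hc
  · have h4 := h3 1 _ (T d m r) hmp N n x hne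
    set D := hammingDistance (residues d m r n N) (residues d m r x N) with hD
    have hx0 : 0 ≤ |(x : ℝ)| := abs_nonneg _
    have hnl : 1 ≤ (n : ℝ) := by
      have : 1 ≤ n := by linarith
      exact_mod_cast this
    have h5 : 1 + Real.log (max |(n : ℝ)| |(x : ℝ)| + |((1 : ℤ) : ℝ)|) ≤ 6 * Real.log (n + |(x : ℝ)|) := by
      rw [habs, Int.cast_one, abs_one]
      have h6 : max (n : ℝ) |(x : ℝ)| + 1 ≤ (n + |(x : ℝ)|) * 2 := by
        rcases max_choice (n : ℝ) |(x : ℝ)| with h | h <;> rw [h] <;> linarith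
      have h7 : 0 < max (n : ℝ) |(x : ℝ)| + 1 := by
        have := le_max_left (n : ℝ) |(x : ℝ)|
        linarith
      have h8 := Real.log_le_log h7 h6
      rw [Real.log_mul (by linarith) (by norm_num)] at h8
      have h9 := Real.log_two_lt_d9
      have h10 : Real.log n ≤ Real.log (n + |(x : ℝ)|) := Real.log_le_log hn0R (by linarith)
      linarith
    have h6 : 0 ≤ Real.log (n + |(x : ℝ)|) := Real.log_nonneg (by linarith)
    calc (N : ℝ) ≤ B3 ^ (D + 1) * (1 + Real.log (max |(n : ℝ)| |(x : ℝ)| + |((1 : ℤ) : ℝ)|)) := h4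
      _ ≤ B0 ^ (D + 1) * (6 * Real.log (n + |(x : ℝ)|)) := by
          have h11 : 0 ≤ 1 + Real.log (max |(n : ℝ)| |(x : ℝ)| + |((1 : ℤ) : ℝ)|) := by
            have := Pool.Agent.Y780.Mo.h2_nonneg hmp n x
            unfold Pool.Agent.Y780.Mo.h2 at this
            linarith
          gcongr
      _ ≤ 6 ^ (D + 1) * (B0 ^ (D + 1) * Real.log (n + |(x : ℝ)|)) := by
          have e : (6 : ℝ) ≤ 6 ^ (D + 1) := by
            rw [pow_succ]
            have : (1 : ℝ) ≤ 6 ^ D := one_le_pow₀ (by norm_num)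
            linarith
          calc B0 ^ (D + 1) * (6 * Real.log (n + |(x : ℝ)|))
              = 6 * (B0 ^ (D + 1) * Real.log (n + |(x : ℝ)|)) := by ring
            _ ≤ _ := by gcongr
      _ = (6 * B0) ^ (D + 1) * Real.log (n + |(x : ℝ)|) := by rw [mul_pow]; ring
      _ = _ := by push_cast; ring

end Pool.Agent.Results.MP_fd8838_nt.PiecesExceptional
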