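import Pool.Agent.Y927.GP.M2

set_option autoImplicit false

/-!
# The values of a polynomial in the exceptional sets of Möller's maps

Let `gcd(m, d) = 1`, `2 ≤ m ≤ d^(d/(d-1))`, and let `f` be a polynomial of degree `D ≥ 1` with integer
coefficients. Every interval of length `Y ≥ 1` contains at most `K Y^(1 - δ)` integers `n` for which
`f n` is in the exceptional set `E(d, m, R)`. For almost all `n` (with a power saving) the `H`-orbit of
`f n` (if `f n` is positive and not divisible by `d`) has a positive term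
`≤ (f n)^(1 - κ / D + ε)`, `κ = 1 - (d - 1) / d * log_d m`.

Method. Large deviations for the residues modulo `d` of the first `N` terms of the `T`-orbit, and the
spread of the values of `f` modulo `d^N`: if `f n ≡ f n'` modulo `d^N`, `n ≡ n'` modulo `d^j` and no
`p^j` with `p ∣ d` prime divides `f' n`, then `n ≡ n'` modulo `d^(N - j)`.
-/

namespace Pool.Agent.Results.MP_fd8838_nt.PolynomialExceptional

open Polynomial Pool.Agent.Y927.GP

/-- The generalised Hasse-Syracuse map `H(x) = (m x - r_j) / d ^ a(x)`, where `j` is the residue of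
`x` modulo `d` and `d ^ a(x)` is the largest power of `d` dividing `m x - r_j`. -/
noncomputable def H (d m : ℕ) (r : ℤ → ℤ) (x : ℤ) : ℤ :=
  (m * x - r (x % d)) / (d : ℤ) ^ multiplicity (d : ℤ) (m * x - r (x % d))

/-- The iterate `H^k(y)` is defined: the orbit does not stop before (it stops at `z` if
`m z ≤ r_j`, where `z ≡ j` modulo `d`). -/
def Defined (d m : ℕ) (r : ℤ → ℤ) (y : ℤ) (k : ℕ) : Prop :=
  ∀ i < k, r ((H d m r)^[i] y % d) < m * (H d m r)^[i] y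

/-- The exceptional set `E(d, m, R)`: the positive integers `n` not divisible by `d` such that
`H^k(n) ≥ n` for all `k ≥ 1` for which `H^k(n)` is defined. -/
def E (d m : ℕ) (r : ℤ → ℤ) : Set ℤ :=
  {n | 0 < n ∧ ¬ (d : ℤ) ∣ n ∧ ∀ k, 1 ≤ k → Defined d m r n k → n ≤ (H d m r)^[k] n}

theorem H_eq (d m : ℕ) (r : ℤ → ℤ) : H d m r = Mo.H d m r := rfl

theorem E_eq (d m : ℕ) (r : ℤ → ℤ) : E d m r = Mo.E d m r := rfl

theorem Defined_iff (d m : ℕ) (r : ℤ → ℤ) (y : ℤ) (k : ℕ) :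
    Defined d m r y k ↔ Mo.Def d m r y k := Iff.rfl

/-- **Main theorem.** Let `gcd(m, d) = 1`, `2 ≤ m ≤ d^(d/(d-1))`, let `R` be admissible and let `f` be a
polynomial of degree `D ≥ 1` with integer coefficients.
1. There are `δ, K > 0` such that every interval `(X, X + Y]`, `Y ≥ 1`, contains at most `K Y^(1 - δ)`
integers `n` with `f n ∈ E(d, m, R)`.
2. For every `ε > 0` there are `δ, K > 0` such that for all `X ≥ 1` and all but `K X^(1 - δ)` of the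
`n ∈ [-X, X]` for which `f n` is positive and not divisible by `d` the `H`-orbit of `f n` has a term
`0 < H^k(f n) ≤ (f n)^(1 - κ / D + ε)`, where `κ = 1 - (d - 1) / d * log m / log d`. -/
theorem result (d m : ℕ) (hd : 2 ≤ d) (hm : 2 ≤ m) (hc : Nat.Coprime m d)
    (hle : (m : ℝ) ≤ (d : ℝ) ^ ((d : ℝ) / ((d : ℝ) - 1))) (r : ℤ → ℤ)
    (hr : ∀ j : ℤ, 1 ≤ j → j < d → r j ≡ m * j [ZMOD d]) (f : ℤ[X]) (hf : 1 ≤ f.natDegree) :
    (∃ δ K : ℝ, 0 < δ ∧ 0 < K ∧ ∀ (X : ℤ) (Y : ℝ), 1 ≤ Y →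
      ({n : ℤ | X < n ∧ (n : ℝ) ≤ X + Y ∧ f.eval n ∈ E d m r}.ncard : ℝ) ≤ K * Y ^ (1 - δ)) ∧
    (∀ ε : ℝ, 0 < ε → ∃ δ K : ℝ, 0 < δ ∧ 0 < K ∧ ∀ X : ℝ, 1 ≤ X →
      ({n : ℤ | |(n : ℝ)| ≤ X ∧ 0 < f.eval n ∧ ¬ (d : ℤ) ∣ f.eval n ∧
        ¬ ∃ k : ℕ, Defined d m r (f.eval n) k ∧ 0 < (H d m r)^[k] (f.eval n) ∧
          (((H d m r)^[k] (f.eval n) : ℤ) : ℝ) ≤ ((f.eval n : ℤ) : ℝ) ^
            (1 - (1 - ((d : ℝ) - 1) / d * (Real.log m / Real.log d)) / f.natDegree + ε)}.ncard : ℝ) ≤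
        K * X ^ (1 - δ)) := by
  classical
  have hr' : ∀ j : ℤ, 1 ≤ j → j < d → (d : ℤ) ∣ m * j - r j := fun j h1 h2 => (hr j h1 h2).dvd
  refine ⟨?_, fun ε hε => ?_⟩
  · obtain ⟨δ, K, hδ, hK, h⟩ := Mo.exc_main hd hm hc hle hr' hf
    exact ⟨δ, K, hδ, hK, fun X Y hY => ncard_int (P := fun n : ℤ => f.eval n ∈ E d m r)
      (fun A hA hE => h X Y hY A hA hE)⟩
  · obtain ⟨δ, K, hδ, hK, h⟩ := Mo.desc_main hd hm hc hle hr' hf hε
    refine ⟨δ, K, hδ, hK, fun X hX => ncard_sym (P := fun n : ℤ => 0 < f.eval n ∧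
      ¬ (d : ℤ) ∣ f.eval n ∧
        ¬ ∃ k : ℕ, Defined d m r (f.eval n) k ∧ 0 < (H d m r)^[k] (f.eval n) ∧
          (((H d m r)^[k] (f.eval n) : ℤ) : ℝ) ≤ ((f.eval n : ℤ) : ℝ) ^
            (1 - (1 - ((d : ℝ) - 1) / d * (Real.log m / Real.log d)) / f.natDegree + ε))
      (fun A hA => h X hX A ?_)⟩
    intro n hn
    obtain ⟨h1, h2, h3, h4⟩ := hA n hn
    refine ⟨h1, h2, h3, fun k hk1 hk2 => ?_⟩
    by_contra hcon
    push Not at hcon
    exact h4 ⟨k, hk1, hk2, hcon⟩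

end Pool.Agent.Results.MP_fd8838_nt.PolynomialExceptional
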